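import Pool.Agent.Helper58.DG.Goals

/-!
# Project DG (MP_06d934_gt), packet A_SUM: the signed count in the region with all `x₀₁, x₀₂, x₁₂` large
-/

set_option autoImplicit false

namespace Pool.Agent.Helper3.DG

open Pool.Agent.Helper83.EIN Pool.Agent.Helper58.DG Finset Topology

/-- The Jacobian matrix of `FA (1/3) (1/3) (1/3) 0` at `(2,2,2,1,1,1)`. -/
def MA : Matrix (Fin 6) (Fin 6) ℝ :=
  !![-8, 0, 0, 16, 16, 0;
     0, -8, 0, 16, 0, 16;
     0, 0, -8, 0, 16, 16;
     0, 0, 0, 8, 0, 0;
     0, 0, 0, 0, 8, 0;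
     0, 0, 0, 0, 0, 8]

theorem MA_det : MA.det = -262144 := by
  rw [Matrix.det_of_isUpperTriangular]
  · simp [MA, Fin.prod_univ_succ]
    norm_num
  · intro i j hij
    fin_cases i <;> fin_cases j <;> simp [MA] at hij ⊢

theorem FA_cd' (a b c t : ℝ) : ContDiff ℝ 1 (FA a b c t) :=
  (FA_cd a b c).comp (contDiff_prodMk_right t)

theorem FA_line (a b c : ℝ) (v : Fin 6 → ℝ) :
    fderiv ℝ (FA a b c 0) ![2, 2, 2, 1, 1, 1] v = MA.mulVec v := by
  have hd : DifferentiableAt ℝ (FA a b c 0) ![2, 2, 2, 1, 1, 1] :=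
    ((FA_cd' a b c 0).differentiable (by norm_num)) _
  have h := hd.hasFDerivAt.hasLineDerivAt v
  unfold HasLineDerivAt at h
  rw [hasDerivAt_pi] at h
  funext i
  rw [← (h i).deriv]
  fin_cases i <;>
  · simp [FA, MA, Matrix.mulVec, dotProduct, Fin.sum_univ_succ]
    simp (disch := fun_prop) only [deriv_fun_add, deriv_fun_sub, deriv_fun_mul, deriv_fun_pow,
      deriv_const, deriv_id'']
    ring_nf

theorem FA_jac (a b c : ℝ) : jac (FA a b c 0) ![2, 2, 2, 1, 1, 1] = -262144 := by
  unfold jac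
  rw [← MA_det]
  have : ((fderiv ℝ (FA a b c 0) ![2, 2, 2, 1, 1, 1] : (Fin 6 → ℝ) →L[ℝ] Fin 6 → ℝ) :
      (Fin 6 → ℝ) →ₗ[ℝ] Fin 6 → ℝ) = Matrix.toLin' MA := by
    refine LinearMap.ext fun v ↦ ?_
    exact FA_line a b c v
  rw [ContinuousLinearMap.det, this, LinearMap.det_toLin']

theorem a_sum (h : C_SGN) : A_SUM := by
  have hK : IsCompact (Set.Icc (![1, 1, 1, 1/2, 1/2, 1/2] : Fin 6 → ℝ) ![2, 2, 2, 2, 2, 2]) :=
    isCompact_Icc
  have hs : ∑ z ∈ ({![2, 2, 2, 1, 1, 1]} : Finset (Fin 6 → ℝ)),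
      sg (jac (FA (1 / 3) (1 / 3) (1 / 3) 0) z) = -1 := by
    rw [sum_singleton, FA_jac]
    unfold sg
    rw [sign_neg (by norm_num : (-262144 : ℝ) < 0)]
    rfl
  unfold A_SUM Reg
  rw [← hs]
  refine h 6 (FA (1 / 3) (1 / 3) (1 / 3)) _ {![2, 2, 2, 1, 1, 1]}
    (Set.pi Set.univ fun i ↦ Set.Ioi ((![1, 1, 1, 1/2, 1/2, 1/2] : Fin 6 → ℝ) i))
    (fun t ↦ {v : Fin 6 → ℝ | Sol (1 / 3) (1 / 3) (1 / 3) t v ∧ 1 ≤ v 0 ∧ 1 ≤ v 1 ∧ 1 ≤ v 2})
    (1 / 2) (FA_cd _ _ _) hK ?_ ?_ ?_ ?_ (by norm_num) ?_ ?_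
  · intro u hu h0
    rw [Set.mem_Icc, Pi.le_def, Pi.le_def] at hu
    have l0 := hu.1 0
    have l1 := hu.1 1
    have l2 := hu.1 2
    have l3 := hu.1 3
    have l4 := hu.1 4
    have l5 := hu.1 5
    simp at l0 l1 l2 l3 l4 l5
    have q0 : 0 < u 0 := by linarith
    have q1 : 0 < u 1 := by linarith
    have q2 : 0 < u 2 := by linarith
    have q3 : 0 < u 3 := by linarith
    have q4 : 0 < u 4 := by linarith
    have q5 : 0 < u 5 := by linarith
    have h0' := congrFun h0 0
    have h1 := congrFun h0 1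
    have h2 := congrFun h0 2
    have h3 := congrFun h0 3
    have h4 := congrFun h0 4
    have h5 := congrFun h0 5
    simp only [FA] at h0' h1 h2 h3 h4 h5
    simp at h0' h1 h2 h3 h4 h5
    have a3 : u 3 = 1 := by
      rcases h3 with h | h
      · exfalso
        rcases h with ((h | h) | h) | h <;> linarith
      · linarith
    have a4 : u 4 = 1 := by
      rcases h4 with h | h
      · exfalso
        rcases h with ((h | h) | h) | h <;> linarith
      · linarith
    have a5 : u 5 = 1 := by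
      rcases h5 with h | h
      · exfalso
        rcases h with ((h | h) | h) | h <;> linarith
      · linarith
    rw [a3, a4] at h0'
    rw [a3, a5] at h1
    rw [a4, a5] at h2
    have a0 : u 0 = 2 := by
      have : (u 1 * u 2 * u 0) * (2 - u 0) = 0 := by linear_combination h0'
      have := (mul_eq_zero.1 this).resolve_left (by positivity)
      linarith
    have a1 : u 1 = 2 := by
      have : (u 0 * u 2 * u 1) * (2 - u 1) = 0 := by linear_combination h1
      have := (mul_eq_zero.1 this).resolve_left (by positivity)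
      linarith
    have a2 : u 2 = 2 := by
      have : (u 0 * u 1 * u 2) * (2 - u 2) = 0 := by linear_combination h2
      have := (mul_eq_zero.1 this).resolve_left (by positivity)
      linarith
    rw [mem_singleton]
    funext i
    fin_cases i
    · exact a0
    · exact a1
    · exact a2
    · exact a3
    · exact a4
    · exact a5
  · intro z hz
    rw [mem_singleton] at hz
    subst hz
    funext i
    fin_cases i <;> simp [FA] <;> norm_num
  · intro z hz
    rw [mem_singleton] at hz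
    subst hz
    rw [FA_jac]
    norm_num
  · intro z hz
    rw [mem_singleton] at hz
    subst hz
    refine (isOpen_set_pi Set.finite_univ fun i _ ↦ isOpen_Ioi).mem_nhds ?_
    intro i _
    fin_cases i <;> simp <;> norm_num
  · rintro t ht ht2 u ⟨hu, l0, l1, l2⟩
    have B := bd ti (by norm_num) (by norm_num) (by norm_num) (by norm_num) ht (by linarith) hu
    refine ⟨⟨?_, ?_⟩, (sol_iff_FA hu.pos).1 hu⟩
    · intro i
      fin_cases i <;> simp
      · exact l0
      · exact l1
      · exact l2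
      · linarith [B.l3]
      · linarith [B.l4]
      · linarith [B.l5]
    · intro i
      fin_cases i <;> simp
      · exact B.u0
      · exact B.u1
      · exact B.u2
      · linarith [B.u3]
      · linarith [B.u4]
      · linarith [B.u5]
  · intro t ht ht2 u hu h0
    have l0 := hu 0 trivial
    have l1 := hu 1 trivial
    have l2 := hu 2 trivial
    have l3 := hu 3 trivial
    have l4 := hu 4 trivial
    have l5 := hu 5 trivial
    simp at l0 l1 l2 l3 l4 l5
    refine ⟨(sol_iff_FA ?_).2 h0, l0.le, l1.le, l2.le⟩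
    intro i
    fin_cases i <;> simp <;> linarith

end Pool.Agent.Helper3.DG
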